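import Pool.Agent.Lib.MP_3ef1ab_nt.F.Ww

/-! MP_3ef1ab_nt, part F, module Fin: the law for the stopped sieve. -/

set_option autoImplicit false

namespace Pool.Agent.Lib.MP_3ef1ab_nt

open Finset Filter Topology
open scoped Classical

theorem az_reg (hF : FlIStmt) (hM : MerStmt) : ∃ c K : ℝ, 0 < c ∧ 0 < K ∧
    ∀ (z : ℝ → ℝ) (β : ℝ) (b : ℕ), 0 ≤ β → 1 ≤ b → Tendsto z atTop atTop → LogRV z β →
      (∀ᶠ x : ℝ in atTop, 80 * b * Real.log (z x) ≤ Real.log x) → ∀ ε : ℝ, 0 < ε →
      K * Real.exp (-(b : ℝ)) + ε ≤ 1 / 4 →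
      RegSet (Az z) (fun x => Real.log (z x)) c (K * Real.exp (-(b : ℝ)) + ε) β := by
  obtain ⟨c, K, hc, hK, h⟩ := win_az hF
  refine ⟨c, K, hc, hK, ?_⟩
  intro z β b hβ hb hz hrv hL ε hε hη
  have hlz : Tendsto (fun x : ℝ => Real.log (z x)) atTop atTop := Real.tendsto_log_atTop.comp hz
  exact {
    zero := fun h0 => by have := h0.1; omega
    c_pos := hc
    η_nonneg := by positivity
    η_le := hη
    β_nonneg := hβ
    L_low := hlz.eventually_ge_atTop 1
    L_up := ⟨1, by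
      filter_upwards [hL, hlz.eventually_ge_atTop 1] with x h1 h2
      have hb1 : (1 : ℝ) ≤ b := by exact_mod_cast hb
      have h3 : 1 * Real.log (z x) ≤ 80 * b * Real.log (z x) :=
        mul_le_mul_of_nonneg_right (by linarith) (by linarith)
      linarith⟩
    rv := hrv
    win := h hM z β b hb hz hrv hL ε hε }

/-- THEOREM F1. -/
theorem stopped (hF : FlIStmt) (hM : MerStmt) (z : ℝ → ℝ) (β : ℝ) (hβ : 0 ≤ β)
    (hz : Tendsto z atTop atTop)
    (hzo : Tendsto (fun x : ℝ => Real.log (z x) / Real.log x) atTop (𝓝 0)) (hrv : LogRV z β) :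
    Tendsto (fun n : ℕ => (cn (Az z) n : ℝ) / n) atTop (𝓝 (2 ^ (-β))) := by
  obtain ⟨c, K, hc, hK, h⟩ := az_reg hF hM
  rw [Metric.tendsto_nhds]
  intro ε hε
  -- choose b
  set d := min (ε / 8) (1 / 8) with hd
  have hd0 : 0 < d := lt_min (by positivity) (by norm_num)
  have hexp : Tendsto (fun b : ℕ => K * Real.exp (-(b : ℝ))) atTop (𝓝 (K * 0)) :=
    (Real.tendsto_exp_neg_atTop_nhds_zero.comp tendsto_natCast_atTop_atTop).const_mul K
  rw [mul_zero] at hexp
  obtain ⟨b, hb1, hb2⟩ := ((hexp.eventually_lt_const hd0).and (eventually_ge_atTop 1)).exists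
  have hb0 : (1 : ℝ) ≤ b := by exact_mod_cast hb2
  have hL : ∀ᶠ x : ℝ in atTop, 80 * b * Real.log (z x) ≤ Real.log x := by
    filter_upwards [hzo.eventually_lt_const (show (0 : ℝ) < 1 / (80 * b) by positivity),
      eventually_gt_atTop (1 : ℝ)] with x h1 h2
    have hlx : 0 < Real.log x := Real.log_pos h2
    rw [div_lt_div_iff₀ hlx (by positivity)] at h1
    linarith
  have hdε : d ≤ ε / 8 := min_le_left _ _
  have hd8 : d ≤ 1 / 8 := min_le_right _ _
  have hR := h z β b hβ hb2 hz hrv hL d hd0 (by linarith)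
  filter_upwards [hR.law (ε / 8) (by positivity)] with n hn
  rw [Real.dist_eq]
  linarith

/-- THEOREM F2. -/
theorem fixedLevel (hF : FlIStmt) (hM : MerStmt) : ∃ C u0 : ℝ, 0 < C ∧ 0 < u0 ∧
    ∀ u : ℝ, u0 ≤ u → ∀ᶠ n : ℕ in atTop,
      |2 * (cn (Az (fun x => x ^ (1 / u))) n : ℝ) / n - 1| ≤ C * Real.exp (-(u / 80)) := by
  obtain ⟨c, K, hc, hK, h⟩ := az_reg hF hM
  -- choose u0
  have hexp : Tendsto (fun u : ℝ => K * Real.exp 1 * Real.exp (-(u / 80))) atTop
      (𝓝 (K * Real.exp 1 * 0)) := by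
    apply Tendsto.const_mul
    exact Real.tendsto_exp_neg_atTop_nhds_zero.comp (tendsto_id.atTop_div_const (by norm_num))
  rw [mul_zero] at hexp
  obtain ⟨u1, hu1⟩ := eventually_atTop.1 (hexp.eventually_lt_const (show (0 : ℝ) < 1 / 8 by norm_num))
  refine ⟨20 * (K * Real.exp 1 + 1), max u1 80, by positivity,
    lt_of_lt_of_le (by norm_num) (le_max_right _ _), ?_⟩
  intro u hu
  have hu80 : 80 ≤ u := (le_max_right _ _).trans hu
  have huu : u1 ≤ u := (le_max_left _ _).trans hu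
  have hu0 : 0 < u := by linarith
  set b := ⌊u / 80⌋₊ with hb
  have hb1 : 1 ≤ b := Nat.le_floor (by rw [Nat.cast_one, le_div_iff₀ (by norm_num)]; linarith)
  have hb2 : (b : ℝ) ≤ u / 80 := Nat.floor_le (by positivity)
  have hb3 : u / 80 < b + 1 := Nat.lt_floor_add_one _
  have hexpb : Real.exp (-(b : ℝ)) ≤ Real.exp 1 * Real.exp (-(u / 80)) := by
    rw [← Real.exp_add]
    apply Real.exp_le_exp.2
    linarith
  have hbase := hu1 u huu
  have hlog : ∀ x : ℝ, 0 < x → Real.log (x ^ (1 / u)) = Real.log x / u := by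
    intro x hx
    rw [Real.log_rpow hx]
    ring
  have hz : Tendsto (fun x : ℝ => x ^ (1 / u)) atTop atTop := tendsto_rpow_atTop (by positivity)
  have hrv : LogRV (fun x : ℝ => x ^ (1 / u)) 1 := by
    intro ε hε
    filter_upwards [eventually_gt_atTop (1 : ℝ)] with x hx
    intro y hy1 hy2
    have hlx : 0 < Real.log x := Real.log_pos hx
    rw [hlog x (by linarith), hlog y (by linarith), Real.rpow_one]
    have : Real.log y / u / (Real.log x / u) - Real.log y / Real.log x = 0 := by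
      field_simp
      ring
    rw [this, abs_zero]
    exact hε.le
  have hL : ∀ᶠ x : ℝ in atTop, 80 * b * Real.log (x ^ (1 / u)) ≤ Real.log x := by
    filter_upwards [eventually_gt_atTop (1 : ℝ)] with x hx
    have hlx : 0 < Real.log x := Real.log_pos hx
    rw [hlog x (by linarith), ← mul_div_assoc, div_le_iff₀ hu0]
    have : 80 * (b : ℝ) ≤ u := by linarith
    nlinarith
  set d := Real.exp (-(u / 80)) / 8 with hd
  have hd0 : 0 < d := by positivity
  have hd1 : d ≤ 1 / 8 := by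
    have : Real.exp (-(u / 80)) ≤ 1 := Real.exp_le_one_iff.2 (by linarith [show 0 < u / 80 by positivity])
    rw [hd]
    linarith
  have hKb : K * Real.exp (-(b : ℝ)) ≤ K * Real.exp 1 * Real.exp (-(u / 80)) := by
    have := mul_le_mul_of_nonneg_left hexpb hK.le
    linarith
  have hR := h (fun x : ℝ => x ^ (1 / u)) 1 b zero_le_one hb1 hz hrv hL d hd0 (by linarith)
  filter_upwards [hR.law d hd0] with n hn
  have e1 : (2 : ℝ) ^ (-(1 : ℝ)) = 1 / 2 := by
    rw [Real.rpow_neg (by norm_num), Real.rpow_one]; norm_num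
  rw [e1] at hn
  have e2 : 2 * (cn (Az (fun x => x ^ (1 / u))) n : ℝ) / n - 1 =
      2 * ((cn (Az (fun x => x ^ (1 / u))) n : ℝ) / n - 1 / 2) := by ring
  rw [e2, abs_mul, abs_two]
  have e3 : 0 < Real.exp (-(u / 80)) := Real.exp_pos _
  have e4 : d = Real.exp (-(u / 80)) / 8 := hd
  have e5 : 0 < K * Real.exp 1 * Real.exp (-(u / 80)) := by positivity
  linarith

/-- The primes are the sieve stopped at `√m`. -/
theorem az_sqrt (m : ℕ) : Az (fun x => √x) m ↔ m.Prime := by
  unfold Az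
  constructor
  · rintro ⟨h2, h⟩
    by_contra hm
    have h1 := Nat.minFac_sq_le_self (show 0 < m by omega) hm
    have h3 := h m.minFac (Nat.minFac_prime (by omega)) (Nat.minFac_dvd m)
    have h4 : (m.minFac : ℝ) ≤ √(m : ℝ) := by
      apply Real.le_sqrt_of_sq_le
      exact_mod_cast h1
    linarith
  · intro hm
    refine ⟨hm.two_le, fun p hp hpm => ?_⟩
    have h1 : p = m := (Nat.prime_dvd_prime_iff_eq hp hm).1 hpm
    rw [h1]
    have h2 : (2 : ℝ) ≤ m := by exact_mod_cast hm.two_le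
    rw [Real.sqrt_lt' (by linarith)]
    nlinarith

end Pool.Agent.Lib.MP_3ef1ab_nt
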