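import Pool.Agent.Lib.MP_3ef1ab_nt.E.Defs
import Pool.Agent.Lib.BV.SpecF

/-! MP_3ef1ab_nt, part F, module Fl: the fundamental lemma in intervals. -/

set_option autoImplicit false

namespace Pool.Agent.Lib.MP_3ef1ab_nt

open Finset Filter Topology
open scoped Classical

/-- the product of `1 - 1/p` over the primes `p ≤ z` -/
noncomputable def VV (z : ℕ) : ℝ := ∏ p ∈ (Icc 1 z).filter Nat.Prime, (1 - 1 / (p : ℝ))

/-- number of `z`-rough integers in `(N, N + Y]` -/
noncomputable def rg (z N Y : ℕ) : ℕ :=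
  ((Ioc N (N + Y)).filter (fun n => Pool.Agent.Lib.BV.Rough z n)).card

theorem rough_iff (z n : ℕ) (hn : 1 ≤ n) :
    Pool.Agent.Lib.BV.Rough z n ↔ (primorial z).Coprime n := by
  unfold Pool.Agent.Lib.BV.Rough
  constructor
  · intro h
    apply Nat.coprime_of_dvd
    intro p hp hpz hpn
    have h1 := h p hp hpn
    rw [hp.dvd_primorial_iff] at hpz
    omega
  · intro h p hp hpn
    by_contra hc
    push Not at hc
    have h1 : p ∣ primorial z := (hp.dvd_primorial_iff).2 hc
    have h2 := Nat.dvd_gcd h1 hpn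
    rw [h] at h2
    exact hp.one_lt.ne' (Nat.dvd_one.1 h2)

theorem rg_block (z N : ℕ) : rg z N (primorial z) = (primorial z).totient := by
  unfold rg
  rw [← Nat.filter_coprime_Ico_eq_totient (primorial z) (N + 1)]
  congr 1
  ext n
  simp only [mem_filter, mem_Ioc, mem_Ico]
  constructor
  · rintro ⟨⟨h1, h2⟩, h3⟩
    exact ⟨⟨by omega, by omega⟩, (rough_iff z n (by omega)).1 h3⟩
  · rintro ⟨⟨h1, h2⟩, h3⟩
    exact ⟨⟨by omega, by omega⟩, (rough_iff z n (by omega)).2 h3⟩

theorem rg_add (z N A B : ℕ) : rg z N (A + B) = rg z N A + rg z (N + A) B := by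
  unfold rg
  have h1 : Ioc N (N + (A + B)) = Ioc N (N + A) ∪ Ioc (N + A) (N + A + B) := by
    ext m; simp only [mem_Ioc, mem_union]; omega
  have h2 : Disjoint (Ioc N (N + A)) (Ioc (N + A) (N + A + B)) := by
    rw [Finset.disjoint_left]
    intro m hm1 hm2
    simp only [mem_Ioc] at hm1 hm2
    omega
  rw [h1, filter_union, card_union_of_disjoint (disjoint_filter_filter h2)]

theorem rg_blocks (z N M : ℕ) : rg z N (M * primorial z) = M * (primorial z).totient := by
  induction M with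
  | zero => unfold rg; simp
  | succ M ih =>
    rw [Nat.succ_mul, rg_add, ih, rg_block, Nat.succ_mul]

theorem VV_eq (z : ℕ) : ((primorial z).totient : ℝ) = primorial z * VV z := by
  have h := Nat.totient_eq_mul_prod_factors (primorial z)
  have h2 : (((primorial z).totient : ℚ) : ℝ) =
      ((primorial z * ∏ p ∈ (primorial z).primeFactors, (1 - (p : ℚ)⁻¹) : ℚ) : ℝ) := by
    rw [h]
  push_cast at h2
  rw [h2]
  congr 1
  unfold VV
  have h3 : (primorial z).primeFactors = (Icc 1 z).filter Nat.Prime := by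
    ext p
    rw [primeFactors_primorial, Nat.mem_primesLE, mem_filter, mem_Icc]
    constructor
    · rintro ⟨h1, h2⟩
      exact ⟨⟨h2.one_lt.le, h1⟩, h2⟩
    · rintro ⟨⟨_, h1⟩, h2⟩
      exact ⟨h1, h2⟩
  rw [h3]
  apply prod_congr rfl
  intro p _
  rw [one_div]

/-- The fundamental lemma in intervals. -/
def FlIStmt : Prop := ∃ C : ℝ, 0 < C ∧ ∀ z b N Y : ℕ, 2 ≤ z → 1 ≤ b →
  |(rg z N Y : ℝ) - Y * VV z| ≤ C * (Real.exp (-(b : ℝ)) / Real.log z) * Y + (z : ℝ) ^ (16 * b)

theorem tFlI (hC : Pool.Agent.Lib.BV.ClfStmt) (hM : Pool.Agent.Lib.BV.MnsStmt) : FlIStmt := by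
  obtain ⟨C, hC0, hM⟩ := hM
  refine ⟨2 * C, by positivity, ?_⟩
  intro z b N Y hz hb
  set P := ∏ j ∈ range z, Pool.Agent.Lib.BV.Yd z 1 b j with hP
  set E := C * Real.exp (-(b : ℝ)) * (1 / Real.log z) with hE
  set R := 2 * ((z : ℝ) + 1) * (z : ℝ) ^ (4 * b + 6) with hR
  have hz2 : (2 : ℝ) ≤ z := by exact_mod_cast hz
  have hlz : 0 < Real.log z := Real.log_pos (by linarith)
  have hE0 : 0 ≤ E := by positivity
  -- comparison with the product of the means
  have base : ∀ N Y : ℕ, |(rg z N Y : ℝ) - Y * P| ≤ Y * E + R := by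
    intro N Y
    have h1 := (hC z 1 b 0 N (N + Y) hz le_rfl (Nat.coprime_one_right 0) (by omega)).2
    have h2 := (hM z 1 b hz le_rfl).2.2
    have h3 : (Ioc N (N + Y)).filter (fun n => n ≡ 0 [MOD 1]) = Ioc N (N + Y) := by
      apply filter_true_of_mem
      intro n _
      exact Nat.modEq_one
    have h4 : ∑ n ∈ Ioc N (N + Y), Pool.Agent.Lib.BV.rr z n = (rg z N Y : ℝ) := by
      unfold rg
      rw [card_filter]
      push_cast
      apply sum_congr rfl
      intro n _
      unfold Pool.Agent.Lib.BV.rr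
      congr
    rw [h3, h4] at h1
    have h5 : (((N + Y : ℕ) : ℝ) - N) / ((1 : ℕ) : ℝ) = Y := by push_cast; ring
    rw [h5, ← hP] at h1
    refine h1.trans ?_
    apply add_le_add _ le_rfl
    apply mul_le_mul_of_nonneg_left _ (Nat.cast_nonneg _)
    refine h2.trans (le_of_eq ?_)
    rw [hE, Nat.totient_one]
    push_cast
    ring
  -- V against P
  have hq : (0 : ℝ) < primorial z := by exact_mod_cast primorial_pos z
  have hVP : |VV z - P| ≤ E := by
    by_contra hcon
    push Not at hcon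
    obtain ⟨M, hMM⟩ := exists_nat_gt (R / (primorial z * (|VV z - P| - E)))
    have hd : 0 < |VV z - P| - E := by linarith
    rw [div_lt_iff₀ (by positivity)] at hMM
    have h1 := base 0 (M * primorial z)
    rw [rg_blocks] at h1
    push_cast at h1
    rw [VV_eq] at h1
    have h2 : (M : ℝ) * (primorial z * VV z) - M * primorial z * P =
        M * primorial z * (VV z - P) := by ring
    rw [h2, abs_mul, abs_of_nonneg (show (0 : ℝ) ≤ M * primorial z by positivity)] at h1
    have h3 : (M : ℝ) * primorial z * |VV z - P| - M * primorial z * E =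
        M * (primorial z * (|VV z - P| - E)) := by ring
    linarith
  have h1 := base N Y
  have h2 : (rg z N Y : ℝ) - Y * VV z = ((rg z N Y : ℝ) - Y * P) - Y * (VV z - P) := by ring
  rw [h2]
  have h3 : |(Y : ℝ) * (VV z - P)| ≤ Y * E := by
    rw [abs_mul, abs_of_nonneg (Nat.cast_nonneg Y)]
    exact mul_le_mul_of_nonneg_left hVP (Nat.cast_nonneg _)
  have h4 : R ≤ (z : ℝ) ^ (16 * b) := by
    have e1 : 2 * ((z : ℝ) + 1) ≤ (z : ℝ) ^ 3 := by
      have : (z : ℝ) ^ 3 = z * z * z := by ring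
      have h5 : 4 * (z : ℝ) ≤ z * z * z := by nlinarith
      nlinarith
    calc R ≤ (z : ℝ) ^ 3 * (z : ℝ) ^ (4 * b + 6) := by
          rw [hR]
          exact mul_le_mul_of_nonneg_right e1 (by positivity)
      _ = (z : ℝ) ^ (4 * b + 9) := by rw [← pow_add]; congr 1; omega
      _ ≤ (z : ℝ) ^ (16 * b) := pow_le_pow_right₀ (by linarith) (by omega)
  calc |((rg z N Y : ℝ) - Y * P) - Y * (VV z - P)| ≤
        |(rg z N Y : ℝ) - Y * P| + |(Y : ℝ) * (VV z - P)| := abs_sub _ _
    _ ≤ (Y * E + R) + Y * E := add_le_add h1 h3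
    _ ≤ 2 * C * (Real.exp (-(b : ℝ)) / Real.log z) * Y + (z : ℝ) ^ (16 * b) := by
        have : Y * E + Y * E = 2 * C * (Real.exp (-(b : ℝ)) / Real.log z) * Y := by
          rw [hE]; ring
        linarith

end Pool.Agent.Lib.MP_3ef1ab_nt
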