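import Pool.Agent.Lib.MP_3ef1ab_nt.F.Fin
import Pool.Agent.Lib.BV.All
import Pool.Agent.Lib.SG.Mrt

/-! MP_3ef1ab_nt, part F, module Main. -/

set_option autoImplicit false

namespace Pool.Agent.Lib.MP_3ef1ab_nt

theorem flI : FlIStmt := tFlI Pool.Agent.Lib.BV.aClf Pool.Agent.Lib.BV.aMns

theorem mer : MerStmt := tMer Pool.Agent.Lib.SG.tMrt

end Pool.Agent.Lib.MP_3ef1ab_nt
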