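import Pool.Agent.Lib.MP_3ef1ab_nt.F.Fl
import Pool.Agent.Lib.SG.SpecA

/-! MP_3ef1ab_nt, part F, module Mer: `VV z * log z → c > 0`. -/

set_option autoImplicit false

namespace Pool.Agent.Lib.MP_3ef1ab_nt

open Finset Filter Topology
open scoped Classical

def MerStmt : Prop := ∃ c : ℝ, 0 < c ∧ Tendsto (fun z : ℕ => VV z * Real.log z) atTop (𝓝 c)

theorem VV_pos (z : ℕ) : 0 < VV z := by
  unfold VV
  apply prod_pos
  intro p hp
  rw [mem_filter] at hp
  have h2 : (2 : ℝ) ≤ p := by exact_mod_cast hp.2.two_le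
  have : 1 / (p : ℝ) ≤ 1 / 2 := one_div_le_one_div_of_le (by norm_num) h2
  linarith

theorem log_one_sub (t : ℝ) (h0 : 0 ≤ t) (h1 : t ≤ 1 / 2) :
    |Real.log (1 - t) + t| ≤ 2 * t ^ 2 := by
  have a1 : Real.log (1 - t) ≤ -t := by
    have := Real.log_le_sub_one_of_pos (show 0 < 1 - t by linarith)
    linarith
  have a2 : -t - 2 * t ^ 2 ≤ Real.log (1 - t) := by
    have h3 := Real.one_sub_inv_le_log_of_pos (show 0 < 1 - t by linarith)
    have h4 : (1 - t)⁻¹ ≤ 1 + t + 2 * t ^ 2 := by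
      rw [inv_le_comm₀ (by linarith) (by positivity), inv_le_iff_one_le_mul₀ (by positivity)]
      nlinarith [mul_nonneg h0 h0, mul_nonneg (mul_nonneg h0 h0) (show (0 : ℝ) ≤ 1 / 2 - t by linarith)]
    linarith
  rw [abs_le]
  constructor <;> nlinarith [sq_nonneg t]

theorem sum_sq_tail (m n : ℕ) (hm : 1 ≤ m) (hmn : m ≤ n) :
    ∑ p ∈ (Ioc m n).filter Nat.Prime, (1 / (p : ℝ)) ^ 2 ≤ 1 / (m : ℝ) := by
  have key : ∀ n, m ≤ n → ∑ p ∈ Ioc m n, (1 / (p : ℝ)) ^ 2 ≤ 1 / (m : ℝ) - 1 / (n : ℝ) := by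
    intro n hn
    induction n, hn using Nat.le_induction with
    | base => simp
    | succ n hn ih =>
      have h1 : Ioc m (n + 1) = insert (n + 1) (Ioc m n) := by
        ext k; simp only [mem_Ioc, mem_insert]; omega
      rw [h1, sum_insert (by simp)]
      have hn0 : (0 : ℝ) < n := by exact_mod_cast (by omega : 0 < n)
      have h2 : (1 / ((n + 1 : ℕ) : ℝ)) ^ 2 ≤ 1 / (n : ℝ) - 1 / ((n + 1 : ℕ) : ℝ) := by
        push_cast
        rw [div_pow, one_pow, div_sub_div _ _ hn0.ne' (by positivity),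
          div_le_div_iff₀ (by positivity) (by positivity)]
        nlinarith
      linarith
  have h1 := key n hmn
  have h2 : ∑ p ∈ (Ioc m n).filter Nat.Prime, (1 / (p : ℝ)) ^ 2 ≤
      ∑ p ∈ Ioc m n, (1 / (p : ℝ)) ^ 2 := by
    apply sum_le_sum_of_subset_of_nonneg (filter_subset _ _)
    intro i _ _
    positivity
  have h3 : (0 : ℝ) ≤ 1 / (n : ℝ) := by positivity
  linarith

theorem tMer (h : Pool.Agent.Lib.SG.MrtStmt) : MerStmt := by
  obtain ⟨C, hC, h⟩ := h
  have hlog : Tendsto (fun n : ℕ => Real.log n) atTop atTop :=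
    Real.tendsto_log_atTop.comp tendsto_natCast_atTop_atTop
  set W : ℕ → ℝ := fun n => Real.log (VV n) + Real.log (Real.log n) with hW
  have hdiff : ∀ m n : ℕ, 2 ≤ m → m ≤ n → |W n - W m| ≤ C / Real.log m + 2 / m := by
    intro m n hm hmn
    have hm2 : (2 : ℝ) ≤ m := by exact_mod_cast hm
    have hn2 : (2 : ℝ) ≤ n := by exact_mod_cast hm.trans hmn
    have hlm : 0 < Real.log m := Real.log_pos (by linarith)
    have hln : 0 < Real.log n := Real.log_pos (by linarith)
    have h1 := h m n hm2 (by exact_mod_cast hmn)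
    rw [Nat.floor_natCast, Nat.floor_natCast, Real.log_div hln.ne' hlm.ne'] at h1
    have h2 : VV n = VV m * ∏ p ∈ (Ioc m n).filter Nat.Prime, (1 - 1 / (p : ℝ)) := by
      unfold VV
      have h3 : Icc 1 n = Icc 1 m ∪ Ioc m n := by
        ext k; simp only [mem_Icc, mem_union, mem_Ioc]; omega
      have h4 : Disjoint (Icc 1 m) (Ioc m n) := by
        rw [Finset.disjoint_left]
        intro k hk1 hk2
        simp only [mem_Icc, mem_Ioc] at hk1 hk2
        omega
      rw [h3, filter_union, prod_union (disjoint_filter_filter h4)]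
    have hpos : ∀ p ∈ (Ioc m n).filter Nat.Prime, (0 : ℝ) < 1 - 1 / (p : ℝ) := by
      intro p hp
      rw [mem_filter] at hp
      have h2 : (2 : ℝ) ≤ p := by exact_mod_cast hp.2.two_le
      have : 1 / (p : ℝ) ≤ 1 / 2 := one_div_le_one_div_of_le (by norm_num) h2
      linarith
    have h5 : Real.log (VV n) = Real.log (VV m) +
        ∑ p ∈ (Ioc m n).filter Nat.Prime, Real.log (1 - 1 / (p : ℝ)) := by
      rw [h2, Real.log_mul (VV_pos m).ne' (prod_pos hpos).ne', Real.log_prod]
      intro p hp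
      exact (hpos p hp).ne'
    have h6 : |∑ p ∈ (Ioc m n).filter Nat.Prime, (Real.log (1 - 1 / (p : ℝ)) + 1 / p)| ≤ 2 / m := by
      calc |∑ p ∈ (Ioc m n).filter Nat.Prime, (Real.log (1 - 1 / (p : ℝ)) + 1 / p)| ≤
            ∑ p ∈ (Ioc m n).filter Nat.Prime, |Real.log (1 - 1 / (p : ℝ)) + 1 / p| :=
            abs_sum_le_sum_abs _ _
        _ ≤ ∑ p ∈ (Ioc m n).filter Nat.Prime, 2 * (1 / (p : ℝ)) ^ 2 := by
            apply sum_le_sum
            intro p hp
            rw [mem_filter] at hp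
            have h2 : (2 : ℝ) ≤ p := by exact_mod_cast hp.2.two_le
            exact log_one_sub _ (by positivity)
              (one_div_le_one_div_of_le (by norm_num) h2)
        _ = 2 * ∑ p ∈ (Ioc m n).filter Nat.Prime, (1 / (p : ℝ)) ^ 2 := by rw [mul_sum]
        _ ≤ 2 * (1 / m) := by
            have := sum_sq_tail m n (by omega) hmn
            linarith
        _ = 2 / m := by ring
    rw [sum_add_distrib] at h6
    have e : W n - W m = (∑ p ∈ (Ioc m n).filter Nat.Prime, Real.log (1 - 1 / (p : ℝ)) +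
        ∑ p ∈ (Ioc m n).filter Nat.Prime, 1 / (p : ℝ)) -
        (∑ p ∈ (Ioc m n).filter Nat.Prime, 1 / (p : ℝ) -
          (Real.log (Real.log n) - Real.log (Real.log m))) := by
      rw [hW]
      simp only
      rw [h5]
      ring
    rw [e]
    calc _ ≤ _ := abs_sub _ _
      _ ≤ 2 / m + C / Real.log m := add_le_add h6 h1
      _ = _ := by ring
  have hcau : CauchySeq W := by
    have hb : Tendsto (fun m : ℕ => C / Real.log m + 2 / (m : ℝ)) atTop (𝓝 (0 + 0)) :=
      (tendsto_const_nhds.div_atTop hlog).add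
        (tendsto_const_nhds.div_atTop tendsto_natCast_atTop_atTop)
    rw [add_zero] at hb
    rw [Metric.cauchySeq_iff']
    intro ε hε
    obtain ⟨N, hN⟩ := eventually_atTop.1 ((hb.eventually_lt_const hε).and (eventually_ge_atTop 2))
    refine ⟨N, fun n hn => ?_⟩
    obtain ⟨h1, h2⟩ := hN N le_rfl
    rw [Real.dist_eq]
    exact lt_of_le_of_lt (hdiff N n h2 hn) h1
  obtain ⟨w, hw⟩ := cauchySeq_tendsto_of_complete hcau
  refine ⟨Real.exp w, Real.exp_pos w, ?_⟩
  have := (Real.continuous_exp.tendsto w).comp hw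
  refine this.congr' ?_
  filter_upwards [eventually_ge_atTop 2] with n hn
  have hn2 : (2 : ℝ) ≤ n := by exact_mod_cast hn
  have hln : 0 < Real.log n := Real.log_pos (by linarith)
  simp only [Function.comp, hW]
  rw [Real.exp_add, Real.exp_log (VV_pos n), Real.exp_log hln]

end Pool.Agent.Lib.MP_3ef1ab_nt
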