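import Pool.Agent.Lib.MP_3ef1ab_nt.F.Main

/-! MP_3ef1ab_nt, part F, module Uni: the law for the stopped sieve, uniform form. -/

set_option autoImplicit false

namespace Pool.Agent.Lib.MP_3ef1ab_nt

open Finset Filter Topology

theorem unified (hF : FlIStmt) (hM : MerStmt) : ∃ C u0 : ℝ, 0 < C ∧ 0 < u0 ∧
    ∀ u : ℝ, u0 ≤ u → ∀ (z : ℝ → ℝ) (β : ℝ), 0 ≤ β → Tendsto z atTop atTop → LogRV z β →
      (∀ᶠ x : ℝ in atTop, u * Real.log (z x) ≤ Real.log x) →
      ∀ᶠ n : ℕ in atTop, |(cn (Az z) n : ℝ) / n - 2 ^ (-β)| ≤ C * Real.exp (-(u / 80)) := by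
  obtain ⟨c, K, hc, hK, h⟩ := az_reg hF hM
  have hexp : Tendsto (fun u : ℝ => K * Real.exp 1 * Real.exp (-(u / 80))) atTop
      (𝓝 (K * Real.exp 1 * 0)) := by
    apply Tendsto.const_mul
    exact Real.tendsto_exp_neg_atTop_nhds_zero.comp (tendsto_id.atTop_div_const (by norm_num))
  rw [mul_zero] at hexp
  obtain ⟨u1, hu1⟩ := eventually_atTop.1 (hexp.eventually_lt_const (show (0 : ℝ) < 1 / 8 by norm_num))
  refine ⟨10 * (K * Real.exp 1 + 1), max u1 80, by positivity,
    lt_of_lt_of_le (by norm_num) (le_max_right _ _), ?_⟩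
  intro u hu z β hβ hz hrv hL
  have hu80 : 80 ≤ u := (le_max_right _ _).trans hu
  have huu : u1 ≤ u := (le_max_left _ _).trans hu
  have hu0 : 0 < u := by linarith
  set b := ⌊u / 80⌋₊ with hb
  have hb1 : 1 ≤ b := Nat.le_floor (by rw [Nat.cast_one, le_div_iff₀ (by norm_num)]; linarith)
  have hb2 : (b : ℝ) ≤ u / 80 := Nat.floor_le (by positivity)
  have hb3 : u / 80 < b + 1 := Nat.lt_floor_add_one _
  have hexpb : Real.exp (-(b : ℝ)) ≤ Real.exp 1 * Real.exp (-(u / 80)) := by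
    rw [← Real.exp_add]
    apply Real.exp_le_exp.2
    linarith
  have hbase := hu1 u huu
  have hlz : Tendsto (fun x : ℝ => Real.log (z x)) atTop atTop := Real.tendsto_log_atTop.comp hz
  have hL' : ∀ᶠ x : ℝ in atTop, 80 * b * Real.log (z x) ≤ Real.log x := by
    filter_upwards [hL, hlz.eventually_ge_atTop 0] with x hx hx0
    have h1 : 80 * (b : ℝ) ≤ u := by linarith
    exact (mul_le_mul_of_nonneg_right h1 hx0).trans hx
  set d := Real.exp (-(u / 80)) / 8 with hd
  have hd0 : 0 < d := by positivity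
  have hd1 : d ≤ 1 / 8 := by
    have : Real.exp (-(u / 80)) ≤ 1 :=
      Real.exp_le_one_iff.2 (by linarith [show 0 < u / 80 by positivity])
    rw [hd]
    linarith
  have hKb : K * Real.exp (-(b : ℝ)) ≤ K * Real.exp 1 * Real.exp (-(u / 80)) := by
    have := mul_le_mul_of_nonneg_left hexpb hK.le
    linarith
  have hR := h z β b hβ hb1 hz hrv hL' d hd0 (by linarith)
  filter_upwards [hR.law d hd0] with n hn
  have e3 : 0 < Real.exp (-(u / 80)) := Real.exp_pos _
  have e4 : d = Real.exp (-(u / 80)) / 8 := hd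
  have e5 : 0 < K * Real.exp 1 * Real.exp (-(u / 80)) := by positivity
  nlinarith

end Pool.Agent.Lib.MP_3ef1ab_nt
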