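import Pool.Agent.Lib.MP_3ef1ab_nt.F.Wz

/-! MP_3ef1ab_nt, part F, module Ww: the number of elements of the stopped sieve in windows. -/

set_option autoImplicit false

namespace Pool.Agent.Lib.MP_3ef1ab_nt

open Finset Filter Topology
open scoped Classical

theorem up_lem {e l c C t Y y V s r : ℝ} (he : 0 < e) (he1 : e ≤ 1 / 20) (hl : 0 < l) (hc : 0 < c)
    (hC : 0 < C) (ht : 0 < t) (hy : 0 < y) (hY0 : 0 ≤ Y) (hY : Y ≤ (1 + e) * y)
    (hs : (1 - 2 * e) * l ≤ s) (hV : V * s ≤ c * (1 + e)) (hr : r ≤ e * (c * y / l))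
    (N : ℝ) (hN : N - Y * V ≤ C * (t / s) * Y + r) :
    N - c * y / l ≤ (2 * (C / c) * t + 7 * e) * (c * y / l) := by
  have hs0 : 0 < s := lt_of_lt_of_le (mul_pos (by linarith) hl) hs
  have h1 : V ≤ c * (1 + e) / s := by rw [le_div_iff₀ hs0]; exact hV
  have h2 : N ≤ Y * ((c * (1 + e) + C * t) / s) + r := by
    have h3 : Y * V ≤ Y * (c * (1 + e) / s) := mul_le_mul_of_nonneg_left h1 hY0
    have h4 : Y * ((c * (1 + e) + C * t) / s) = Y * (c * (1 + e) / s) + C * (t / s) * Y := by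
      field_simp
    linarith
  have h5 : (c * (1 + e) + C * t) / s ≤ (c * (1 + e) + C * t) / ((1 - 2 * e) * l) :=
    div_le_div_of_nonneg_left (by positivity) (mul_pos (by linarith) hl) hs
  have h6 : Y * ((c * (1 + e) + C * t) / s) ≤
      ((1 + e) * y) * ((c * (1 + e) + C * t) / ((1 - 2 * e) * l)) := by
    apply mul_le_mul hY h5 (by positivity) (by positivity)
  have hq : 0 < c * y / l := by positivity
  have h7 : ((1 + e) * y) * ((c * (1 + e) + C * t) / ((1 - 2 * e) * l)) =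
      ((1 + e) / (1 - 2 * e)) * ((1 + e) + C / c * t) * (c * y / l) := by
    have : (1 - 2 * e) ≠ 0 := by linarith
    field_simp
  have h8 : (1 + e) / (1 - 2 * e) ≤ 1 + 4 * e := by
    rw [div_le_iff₀ (by linarith)]
    nlinarith
  have h9 : ((1 + e) / (1 - 2 * e)) * ((1 + e) + C / c * t) ≤ 1 + 6 * e + 2 * (C / c) * t := by
    have h10 : 0 < C / c * t := by positivity
    calc ((1 + e) / (1 - 2 * e)) * ((1 + e) + C / c * t) ≤
          (1 + 4 * e) * ((1 + e) + C / c * t) := mul_le_mul_of_nonneg_right h8 (by positivity)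
      _ ≤ _ := by nlinarith
  have h11 := mul_le_mul_of_nonneg_right h9 hq.le
  rw [← h7] at h11
  have h12 : (1 + 6 * e + 2 * (C / c) * t) * (c * y / l) + e * (c * y / l) =
      c * y / l + (2 * (C / c) * t + 7 * e) * (c * y / l) := by ring
  linarith

theorem low_lem {e l c C t Y y V s r : ℝ} (he : 0 < e) (he1 : e ≤ 1 / 20) (hl : 0 < l) (hc : 0 < c)
    (hC : 0 < C) (ht : 0 < t) (hy : 0 < y) (hY : (1 - e) * y ≤ Y) (hY2 : Y ≤ 2 * y)
    (hs : s ≤ (1 + 2 * e) * l) (hs2 : l ≤ s) (hV : c * (1 - e) ≤ V * s)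
    (hr : r ≤ e * (c * y / l))
    (N : ℝ) (hN : Y * V - N ≤ C * (t / s) * Y + r) :
    c * y / l - N ≤ (2 * (C / c) * t + 7 * e) * (c * y / l) := by
  have hs0 : 0 < s := by linarith
  have hY0 : 0 < Y := lt_of_lt_of_le (mul_pos (by linarith) hy) hY
  have h1 : c * (1 - e) / s ≤ V := by rw [div_le_iff₀ hs0]; exact hV
  have h2 : c * (1 - e) / ((1 + 2 * e) * l) ≤ V :=
    (div_le_div_of_nonneg_left (mul_nonneg hc.le (by linarith)) hs0 hs).trans h1
  have h3 : ((1 - e) * y) * (c * (1 - e) / ((1 + 2 * e) * l)) ≤ Y * V := by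
    apply mul_le_mul hY h2 _ hY0.le
    apply div_nonneg (mul_nonneg hc.le (by linarith)) (by positivity)
  have hq : 0 < c * y / l := by positivity
  have h4 : ((1 - e) * y) * (c * (1 - e) / ((1 + 2 * e) * l)) =
      ((1 - e) * (1 - e) / (1 + 2 * e)) * (c * y / l) := by
    have : (1 + 2 * e) ≠ 0 := by linarith
    field_simp
  have h5 : 1 - 4 * e ≤ (1 - e) * (1 - e) / (1 + 2 * e) := by
    rw [le_div_iff₀ (by linarith)]
    nlinarith
  have h6 := mul_le_mul_of_nonneg_right h5 hq.le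
  rw [← h4] at h6
  have h7 : C * (t / s) * Y ≤ 2 * (C / c) * t * (c * y / l) := by
    have h8 : t / s ≤ t / l := div_le_div_of_nonneg_left ht.le hl hs2
    calc C * (t / s) * Y ≤ C * (t / l) * (2 * y) := by
          apply mul_le_mul _ hY2 hY0.le (by positivity)
          exact mul_le_mul_of_nonneg_left h8 hC.le
      _ = 2 * (C / c) * t * (c * y / l) := by field_simp
  nlinarith

theorem exp_floor {a d : ℝ} (hd : Real.log 2 ≤ d) (ha : 0 ≤ a) :
    a ≤ Real.log (⌊Real.exp (a + d)⌋₊ : ℝ) := by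
  have h1 : Real.exp (a + d) = Real.exp a * Real.exp d := Real.exp_add a d
  have h2 : 2 ≤ Real.exp d := by
    rw [← Real.log_le_iff_le_exp (by norm_num)]
    exact hd
  have h3 : 1 ≤ Real.exp a := Real.one_le_exp ha
  have h4 := Nat.lt_floor_add_one (Real.exp (a + d))
  have h5 : Real.exp a ≤ (⌊Real.exp (a + d)⌋₊ : ℝ) := by nlinarith
  have h6 := Real.log_le_log (Real.exp_pos a) h5
  rwa [Real.log_exp] at h6

theorem exp_ceil {a d : ℝ} (hd : Real.log 2 ≤ d) (ha : 0 ≤ a) :
    Real.log (⌈Real.exp a⌉₊ : ℝ) ≤ a + d := by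
  have h2 : 2 ≤ Real.exp d := by
    rw [← Real.log_le_iff_le_exp (by norm_num)]
    exact hd
  have h3 : 1 ≤ Real.exp a := Real.one_le_exp ha
  have h4 := Nat.ceil_lt_add_one (Real.exp_pos a).le
  have h5 : (⌈Real.exp a⌉₊ : ℝ) ≤ Real.exp (a + d) := by
    rw [Real.exp_add]
    nlinarith
  have h0 : (0 : ℝ) < (⌈Real.exp a⌉₊ : ℝ) := by
    have := Nat.le_ceil (Real.exp a)
    linarith [Real.exp_pos a]
  have h6 := Real.log_le_log h0 h5
  rwa [Real.log_exp] at h6

theorem win_az (hF : FlIStmt) : ∃ c K : ℝ, 0 < c ∧ 0 < K ∧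
    (MerStmt → ∀ (z : ℝ → ℝ) (β : ℝ) (b : ℕ), 1 ≤ b → Tendsto z atTop atTop → LogRV z β →
      (∀ᶠ x : ℝ in atTop, 80 * b * Real.log (z x) ≤ Real.log x) → ∀ ε : ℝ, 0 < ε →
      ∀ᶠ x : ℝ in atTop, ∀ y : ℝ, √x ≤ y → y ≤ x →
        |(ct (Az z) (x + y) : ℝ) - ct (Az z) x - c * y / Real.log (z x)| ≤
          (K * Real.exp (-(b : ℝ)) + ε) * (c * y / Real.log (z x))) := by
  obtain ⟨C, hC, hF⟩ := hF
  by_cases hM : MerStmt
  swap
  · exact ⟨1, 1, one_pos, one_pos, fun h => absurd h hM⟩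
  obtain ⟨c, hc, hM⟩ := hM
  refine ⟨c, 2 * (C / c), hc, by positivity, ?_⟩
  intro _ z β b hb hz hrv hL ε hε
  set e := min (ε / 7) (1 / 20) with hedef
  have he : 0 < e := lt_min (by positivity) (by norm_num)
  have he1 : e ≤ 1 / 20 := min_le_right _ _
  have heε : 7 * e ≤ ε := by
    have : e ≤ ε / 7 := min_le_left _ _
    linarith
  have hlz : Tendsto (fun x : ℝ => Real.log (z x)) atTop atTop := Real.tendsto_log_atTop.comp hz
  -- Mertens at large z
  obtain ⟨z0, hz0⟩ := eventually_atTop.1 (Metric.tendsto_nhds.1 hM (c * e) (by positivity))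
  -- eventual facts
  have f1 : ∀ᶠ x : ℝ in atTop, 2 * Real.log 2 / e + 4 ≤ Real.log (z x) :=
    hlz.eventually_ge_atTop _
  have f2 : ∀ᶠ x : ℝ in atTop, 2 * Real.log ((z0 : ℝ) + 2) + 2 ≤ Real.log (z x) :=
    hlz.eventually_ge_atTop _
  obtain ⟨x1, hx1⟩ := eventually_atTop.1 (hz.eventually_gt_atTop 1)
  have f3 : ∀ᶠ x : ℝ in atTop, x ^ ((2 : ℝ) / 5) * Real.log x ≤ e * c * √x := by
    have h1 := (isLittleO_log_rpow_atTop (show (0 : ℝ) < 1 / 10 by norm_num)).def
      (show (0 : ℝ) < e * c by positivity)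
    filter_upwards [h1, eventually_ge_atTop (3 : ℝ)] with x hx hx3
    have hLx : 0 < Real.log x := Real.log_pos (by linarith)
    have hx0 : 0 < x := by linarith
    rw [Real.norm_of_nonneg hLx.le, Real.norm_of_nonneg (by positivity)] at hx
    calc x ^ ((2 : ℝ) / 5) * Real.log x ≤ x ^ ((2 : ℝ) / 5) * (e * c * x ^ ((1 : ℝ) / 10)) :=
          mul_le_mul_of_nonneg_left hx (by positivity)
      _ = e * c * (x ^ ((2 : ℝ) / 5) * x ^ ((1 : ℝ) / 10)) := by ring
      _ = e * c * √x := by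
          rw [← Real.rpow_add hx0, Real.sqrt_eq_rpow]
          norm_num
  have f4 : ∀ᶠ x : ℝ in atTop, 1 ≤ e * √x :=
    (Real.tendsto_sqrt_atTop.const_mul_atTop he).eventually_ge_atTop _
  filter_upwards [rv_near hrv e he, hL, f1, f2, f3, f4, eventually_ge_atTop (max x1 4)] with
    x g1 g2 g3 g4 g5 g6 g7
  intro y hy1 hy2
  have hx4 : (4 : ℝ) ≤ x := (le_max_right _ _).trans g7
  have hxx1 : x1 ≤ x := (le_max_left _ _).trans g7
  have hx0 : 0 < x := by linarith
  have hs0 : 0 < √x := Real.sqrt_pos.2 hx0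
  have hy0 : 0 < y := by linarith
  set l := Real.log (z x) with hl
  have hl0 : 0 < l := by
    have : 0 < 2 * Real.log 2 / e := by
      have := Real.log_pos (show (1 : ℝ) < 2 by norm_num)
      positivity
    linarith
  have hlogx : 0 < Real.log x := Real.log_pos (by linarith)
  have hb1 : (1 : ℝ) ≤ b := by exact_mod_cast hb
  -- e l / 2 ≥ log 2
  have hel : Real.log 2 ≤ e * l := by
    have h1 : 2 * Real.log 2 / e ≤ l := by linarith
    rw [div_le_iff₀ he] at h1
    have := Real.log_pos (show (1 : ℝ) < 2 by norm_num)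
    linarith
  set z1 := ⌊Real.exp ((1 - 2 * e) * l + e * l)⌋₊ with hz1
  set z2 := ⌈Real.exp ((1 + e) * l)⌉₊ with hz2
  have hA0 : 0 ≤ (1 - 2 * e) * l := mul_nonneg (by linarith) hl0.le
  have lz1 : (1 - 2 * e) * l ≤ Real.log z1 := exp_floor hel hA0
  have lz2 : Real.log z2 ≤ (1 + e) * l + e * l := exp_ceil hel (by positivity)
  have lz2' : (1 + e) * l ≤ Real.log z2 := by
    have h1 := Nat.le_ceil (Real.exp ((1 + e) * l))
    have h2 := Real.log_le_log (Real.exp_pos _) h1
    rwa [Real.log_exp] at h2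
  have lz1' : Real.log z1 ≤ (1 - e) * l := by
    have h1 := Nat.floor_le (Real.exp_pos ((1 - 2 * e) * l + e * l)).le
    have h0 : (0 : ℝ) < z1 := by
      by_contra hc0
      push Not at hc0
      have : Real.log z1 ≤ 0 := Real.log_nonpos (Nat.cast_nonneg _) (by linarith)
      have : 0 < (1 - 2 * e) * l := mul_pos (by linarith) hl0
      linarith
    have h2 := Real.log_le_log h0 h1
    rw [Real.log_exp] at h2
    linarith
  -- sizes of z1, z2
  have hl4 : 4 ≤ l := by
    have : 0 < 2 * Real.log 2 / e := by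
      have := Real.log_pos (show (1 : ℝ) < 2 by norm_num)
      positivity
    linarith
  have big1 : Real.log ((z0 : ℝ) + 2) < Real.log z1 := by
    have h0 := mul_le_mul_of_nonneg_right he1 hl0.le
    linarith
  have hz1pos : (0 : ℝ) < z1 := by
    by_contra hc0
    push Not at hc0
    have : Real.log z1 ≤ 0 := Real.log_nonpos (Nat.cast_nonneg _) (by linarith)
    have : 0 < (1 - 2 * e) * l := mul_pos (by linarith) hl0
    linarith
  have hz1big : (z0 : ℝ) + 2 < z1 := (Real.log_lt_log_iff (by positivity) hz1pos).1 big1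
  have hz1n : z0 + 2 < z1 := by exact_mod_cast hz1big
  have hz2pos : (0 : ℝ) < z2 := by
    have := Nat.le_ceil (Real.exp ((1 + e) * l))
    linarith [Real.exp_pos ((1 + e) * l)]
  have big2 : Real.log ((z0 : ℝ) + 2) < Real.log z2 := by
    have h0 := mul_pos he hl0
    linarith
  have hz2big : (z0 : ℝ) + 2 < z2 := (Real.log_lt_log_iff (by positivity) hz2pos).1 big2
  have hz2n : z0 + 2 < z2 := by exact_mod_cast hz2big
  have v1 := hz0 z1 (by omega)
  have v2 := hz0 z2 (by omega)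
  rw [Real.dist_eq, abs_lt] at v1 v2
  -- the interval
  set u := ⌊x⌋₊ with hu
  set v := ⌊x + y⌋₊ with hv
  have hu1 := Nat.floor_le hx0.le
  have hu2 := Nat.lt_floor_add_one x
  have hv1 := Nat.floor_le (show 0 ≤ x + y by linarith)
  have hv2 := Nat.lt_floor_add_one (x + y)
  have huv : u ≤ v := Nat.floor_le_floor (by linarith)
  obtain ⟨Y, hY⟩ := Nat.exists_eq_add_of_le huv
  have hYr : (Y : ℝ) = v - u := by rw [hY]; push_cast; ring
  have hu4 : 2 ≤ u := by
    have : (2 : ℝ) ≤ u := by linarith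
    exact_mod_cast this
  have hsand := az_sandwich (z := z) (u := u) (v := v) (z1 := z1) (z2 := z2) hu4 (by
    intro m hm1 hm2
    have h1 : x < m := (Nat.floor_lt hx0.le).1 hm1
    have h2 : (m : ℝ) ≤ x + y := le_trans (by exact_mod_cast hm2) hv1
    have h3 := g1 m h1.le (by linarith)
    rw [abs_le] at h3
    have hzm : 1 < z m := hx1 m (by linarith)
    have h4 : (1 - e) * l ≤ Real.log (z m) := by
      have := h3.1
      rw [neg_le_sub_iff_le_add, ← sub_le_iff_le_add] at this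
      rwa [le_div_iff₀ hl0] at this
    have h5 : Real.log (z m) ≤ (1 + e) * l := by
      have := h3.2
      rw [sub_le_iff_le_add, div_le_iff₀ hl0] at this
      linarith
    constructor
    · have h6 : (z1 : ℝ) ≤ Real.exp ((1 - e) * l) := by
        have := Nat.floor_le (Real.exp_pos ((1 - 2 * e) * l + e * l)).le
        have e1 : (1 - 2 * e) * l + e * l = (1 - e) * l := by ring
        rw [e1] at this
        rw [hz1, e1]
        exact this
      have h7 : Real.exp ((1 - e) * l) ≤ z m := by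
        rw [← Real.le_log_iff_exp_le (by linarith)]
        exact h4
      linarith
    · have h6 : Real.exp ((1 + e) * l) ≤ z2 := Nat.le_ceil _
      have h7 : z m ≤ Real.exp ((1 + e) * l) := by
        rw [← Real.log_le_iff_le_exp (by linarith)]
        exact h5
      linarith)
  have hct : (ct (Az z) (x + y) : ℝ) - ct (Az z) x = ((Ioc u v).filter (Az z)).card := by
    rw [ct_floor (Az z) (x + y), ct_floor (Az z) x, ← hu, ← hv, ct_sub _ u v huv]
  rw [hct]
  obtain ⟨s1, s2⟩ := hsand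
  rw [hY] at s1 s2
  have s1' : (((Ioc u (u + Y)).filter (Az z)).card : ℝ) ≤ rg z1 u Y := by exact_mod_cast s1
  have s2' : (rg z2 u Y : ℝ) ≤ ((Ioc u (u + Y)).filter (Az z)).card := by exact_mod_cast s2
  have F1 := hF z1 b u Y (by omega) hb
  have F2 := hF z2 b u Y (by omega) hb
  rw [abs_le] at F1 F2
  have ht : 0 < Real.exp (-(b : ℝ)) := Real.exp_pos _
  -- the error powers
  have hpow : ∀ w : ℕ, 0 < w → Real.log w ≤ 2 * l →
      (w : ℝ) ^ (16 * b) ≤ e * (c * y / l) := by
    intro w hw0 hw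
    have hw0' : (0 : ℝ) < w := by exact_mod_cast hw0
    have h1 : (w : ℝ) ^ (16 * b) ≤ x ^ ((2 : ℝ) / 5) := by
      rw [← Real.log_le_log_iff (by positivity) (by positivity), Real.log_pow,
        Real.log_rpow hx0]
      push_cast
      have h2 : 16 * (b : ℝ) * Real.log w ≤ 16 * b * (2 * l) :=
        mul_le_mul_of_nonneg_left hw (by positivity)
      linarith
    have hlx : l ≤ Real.log x := by
      have h2 : 1 * l ≤ 80 * b * l := mul_le_mul_of_nonneg_right (by linarith) hl0.le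
      linarith
    rw [← mul_div_assoc, le_div_iff₀ hl0]
    calc (w : ℝ) ^ (16 * b) * l ≤ x ^ ((2 : ℝ) / 5) * Real.log x :=
          mul_le_mul h1 hlx hl0.le (by positivity)
      _ ≤ e * c * √x := g5
      _ ≤ e * c * y := mul_le_mul_of_nonneg_left hy1 (by positivity)
      _ = e * (c * y) := by ring
  have hel2 : e * l ≤ 1 / 20 * l := mul_le_mul_of_nonneg_right he1 hl0.le
  have hel0 : 0 < e * l := mul_pos he hl0
  have hey2 : e * y ≤ 1 / 20 * y := mul_le_mul_of_nonneg_right he1 hy0.le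
  have p1 := hpow z1 (by omega) (by linarith)
  have p2 := hpow z2 (by omega) (by linarith)
  have hey : 1 ≤ e * y := by
    have := mul_le_mul_of_nonneg_left hy1 he.le
    linarith
  have hq : 0 < c * y / l := by positivity
  have hYu : (Y : ℝ) ≤ (1 + e) * y := by rw [hYr]; linarith
  have hYl : (1 - e) * y ≤ (Y : ℝ) := by rw [hYr]; linarith
  have U := up_lem he he1 hl0 hc hC ht hy0 (Nat.cast_nonneg Y) hYu lz1
    (show VV z1 * Real.log z1 ≤ c * (1 + e) by linarith [v1.2]) p1
    (((Ioc u (u + Y)).filter (Az z)).card : ℝ) (by linarith [F1.2])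
  have W := low_lem he he1 hl0 hc hC ht hy0 hYl (by linarith)
    (show Real.log z2 ≤ (1 + 2 * e) * l by linarith) (by linarith)
    (show c * (1 - e) ≤ VV z2 * Real.log z2 by linarith [v2.1]) p2
    (((Ioc u (u + Y)).filter (Az z)).card : ℝ) (by linarith [F2.1])
  rw [hY]
  have fin : (2 * (C / c) * Real.exp (-(b : ℝ)) + 7 * e) * (c * y / l) ≤
      (2 * (C / c) * Real.exp (-(b : ℝ)) + ε) * (c * y / l) :=
    mul_le_mul_of_nonneg_right (by linarith) hq.le
  rw [abs_le]
  constructor <;> linarith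

end Pool.Agent.Lib.MP_3ef1ab_nt
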