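import Pool.Agent.Lib.MP_3ef1ab_nt.F.Mer
import Pool.Agent.Lib.MP_3ef1ab_nt.D.Law

/-! MP_3ef1ab_nt, part F, module Wz: the stopped sieve in intervals. -/

set_option autoImplicit false

namespace Pool.Agent.Lib.MP_3ef1ab_nt

open Finset Filter Topology
open scoped Classical

/-- The integers `m ≥ 2` all of whose prime factors are `> z(m)`. -/
def Az (z : ℝ → ℝ) (m : ℕ) : Prop := 2 ≤ m ∧ ∀ p : ℕ, p.Prime → p ∣ m → z m < p

/-- `log z(y) / log z(x) - (log y / log x)^β → 0` uniformly for `x ≤ y ≤ x²`, as `x → ∞`. -/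
def LogRV (z : ℝ → ℝ) (β : ℝ) : Prop := ∀ ε : ℝ, 0 < ε → ∀ᶠ x : ℝ in atTop, ∀ y : ℝ,
  x ≤ y → y ≤ x ^ 2 → |Real.log (z y) / Real.log (z x) - (Real.log y / Real.log x) ^ β| ≤ ε

/-- for `x ≤ y ≤ 2 x` the quotient is close to 1 -/
theorem rv_near {z : ℝ → ℝ} {β : ℝ} (h : LogRV z β) (ε : ℝ) (hε : 0 < ε) :
    ∀ᶠ x : ℝ in atTop, ∀ y : ℝ, x ≤ y → y ≤ 2 * x →
      |Real.log (z y) / Real.log (z x) - 1| ≤ ε := by
  -- (log (2 x) / log x)^β → 1
  have h1 : Tendsto (fun x : ℝ => Real.log (2 * x) / Real.log x) atTop (𝓝 1) := by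
    have h1 : Tendsto (fun y : ℝ => 1 + Real.log 2 / Real.log y) atTop (𝓝 (1 + 0)) :=
      tendsto_const_nhds.add (tendsto_const_nhds.div_atTop Real.tendsto_log_atTop)
    rw [add_zero] at h1
    refine h1.congr' ?_
    filter_upwards [eventually_gt_atTop (1 : ℝ)] with y hy
    have hL : 0 < Real.log y := Real.log_pos hy
    rw [Real.log_mul (by norm_num) (by linarith)]
    field_simp
    ring
  have h2 : Tendsto (fun x : ℝ => (Real.log (2 * x) / Real.log x) ^ |β|) atTop (𝓝 1) := by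
    have := h1.rpow_const (p := |β|) (Or.inl one_ne_zero)
    rwa [Real.one_rpow] at this
  have h3 : Tendsto (fun x : ℝ => (Real.log (2 * x) / Real.log x) ^ (-|β|)) atTop (𝓝 1) := by
    have := h1.rpow_const (p := -|β|) (Or.inl one_ne_zero)
    rwa [Real.one_rpow] at this
  have h2' := Metric.tendsto_nhds.1 h2 (ε / 2) (by positivity)
  have h3' := Metric.tendsto_nhds.1 h3 (ε / 2) (by positivity)
  filter_upwards [h (ε / 2) (by positivity), h2', h3', eventually_ge_atTop (2 : ℝ)] with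
    x k1 k2 k3 k4
  intro y hy1 hy2
  have k5 := k1 y hy1 (by nlinarith)
  have hL : 0 < Real.log x := Real.log_pos (by linarith)
  have hr1 : 1 ≤ Real.log y / Real.log x := by
    rw [le_div_iff₀ hL, one_mul]
    exact Real.log_le_log (by linarith) hy1
  have hr2 : Real.log y / Real.log x ≤ Real.log (2 * x) / Real.log x := by
    apply div_le_div_of_nonneg_right _ hL.le
    exact Real.log_le_log (by linarith) hy2
  have u1 : (Real.log y / Real.log x) ^ β ≤ (Real.log (2 * x) / Real.log x) ^ |β| := by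
    calc (Real.log y / Real.log x) ^ β ≤ (Real.log y / Real.log x) ^ |β| :=
          Real.rpow_le_rpow_of_exponent_le hr1 (le_abs_self β)
      _ ≤ _ := Real.rpow_le_rpow (by linarith) hr2 (abs_nonneg β)
  have u2 : (Real.log (2 * x) / Real.log x) ^ (-|β|) ≤ (Real.log y / Real.log x) ^ β := by
    calc (Real.log (2 * x) / Real.log x) ^ (-|β|) ≤ (Real.log y / Real.log x) ^ (-|β|) := by
          rw [Real.rpow_neg (by linarith), Real.rpow_neg (by linarith)]
          apply inv_anti₀ (by positivity)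
          exact Real.rpow_le_rpow (by linarith) hr2 (abs_nonneg β)
      _ ≤ _ := Real.rpow_le_rpow_of_exponent_le hr1 (neg_abs_le β)
  rw [Real.dist_eq, abs_lt] at k2 k3
  rw [abs_le] at k5 ⊢
  constructor <;> linarith [k5.1, k5.2, k2.1, k2.2, k3.1, k3.2]

/-- sandwich -/
theorem az_sandwich {z : ℝ → ℝ} {u v z1 z2 : ℕ} (hu : 2 ≤ u)
    (h1 : ∀ m : ℕ, u < m → m ≤ v → (z1 : ℝ) ≤ z m ∧ z m ≤ z2) :
    ((Ioc u v).filter (Az z)).card ≤
      ((Ioc u v).filter (fun n => Pool.Agent.Lib.BV.Rough z1 n)).card ∧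
    ((Ioc u v).filter (fun n => Pool.Agent.Lib.BV.Rough z2 n)).card ≤
      ((Ioc u v).filter (Az z)).card := by
  constructor
  · apply card_le_card
    intro m hm
    simp only [mem_filter, mem_Ioc] at hm ⊢
    refine ⟨hm.1, fun p hp hpm => ?_⟩
    have h2 := hm.2.2 p hp hpm
    have h3 := (h1 m hm.1.1 hm.1.2).1
    have : (z1 : ℝ) < p := lt_of_le_of_lt h3 h2
    exact_mod_cast this
  · apply card_le_card
    intro m hm
    simp only [mem_filter, mem_Ioc] at hm ⊢
    refine ⟨hm.1, by omega, fun p hp hpm => ?_⟩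
    have h2 := hm.2 p hp hpm
    have h3 := (h1 m hm.1.1 hm.1.2).2
    have : (z2 : ℝ) < p := by exact_mod_cast h2
    linarith

end Pool.Agent.Lib.MP_3ef1ab_nt
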